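import Pool.Agent.Work.MP_e487d8_al.Alg.Defs

/-! MP_e487d8_al: shift and truncation endomorphisms of the KLR algebra, strand modules,
twisted modules. -/

set_option autoImplicit false

namespace Pool.Agent.KLR

variable {K I : Type} [Field K] [Fintype I] [DecidableEq I]

namespace Datum

variable (D : Datum K I)

theorem e_mul_e (k : ℕ) (i j : I) : D.e k i * D.e k j = if i = j then D.e k i else 0 :=
  D.rels.ee k i j
theorem e_idem (k : ℕ) (i : I) : D.e k i * D.e k i = D.e k i := by simp [e_mul_e]
theorem e_mul_e_ne (k : ℕ) {i j : I} (h : i ≠ j) : D.e k i * D.e k j = 0 := by simp [e_mul_e, h]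
theorem e_comm (k l : ℕ) (i j : I) : D.e k i * D.e l j = D.e l j * D.e k i := D.rels.ee_comm k l i j
theorem x_comm (k l : ℕ) : D.x k * D.x l = D.x l * D.x k := D.rels.xx k l
theorem x_e (k l : ℕ) (i : I) : D.x k * D.e l i = D.e l i * D.x k := D.rels.xe k l i
theorem x_E (k : ℕ) : D.x k * D.E k = D.x k := D.rels.xE k
theorem t_E (k : ℕ) : D.t k * D.E k = D.t k := D.rels.tE k
theorem t_E' (k : ℕ) : D.t k * D.E (k + 1) = D.t k := D.rels.tE' k
theorem t_e0 (k : ℕ) (i : I) : D.t k * D.e k i = D.e (k + 1) i * D.t k := D.rels.te0 k i
theorem t_e1 (k : ℕ) (i : I) : D.t k * D.e (k + 1) i = D.e k i * D.t k := D.rels.te1 k i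
theorem t_e (k l : ℕ) (i : I) (h : l ≠ k) (h' : l ≠ k + 1) :
    D.t k * D.e l i = D.e l i * D.t k := D.rels.te k l i h h'
theorem t_x (k l : ℕ) (h : l ≠ k) (h' : l ≠ k + 1) :
    D.t k * D.x l = D.x l * D.t k := D.rels.tx k l h h'
theorem t_x0 (k : ℕ) : D.t k * D.x k = D.x (k + 1) * D.t k - D.dl k := D.rels.tx0 k
theorem t_x1 (k : ℕ) : D.t k * D.x (k + 1) = D.x k * D.t k + D.dl k := D.rels.tx1 k
theorem t_t (k : ℕ) : D.t k * D.t k = ∑ i, ∑ j, if i = j then 0 else
    D.c i j • ((D.x k - D.x (k + 1)) ^ D.q i j * (D.e k i * D.e (k + 1) j)) := D.rels.tt k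
theorem t_far (k l : ℕ) (h : k + 1 < l) : D.t k * D.t l = D.t l * D.t k := D.rels.far k l h
theorem t_braid (k : ℕ) : D.t (k + 1) * D.t k * D.t (k + 1) - D.t k * D.t (k + 1) * D.t k =
    ∑ i, ∑ j, if i = j then 0 else
      D.c i j • ((∑ p ∈ Finset.range (D.q i j),
        (D.x k - D.x (k + 1)) ^ p * (D.x (k + 2) - D.x (k + 1)) ^ (D.q i j - 1 - p)) *
          (D.e k i * D.e (k + 1) j * D.e (k + 2) i)) := D.rels.braid k

/-- shift by `m` strands -/
noncomputable def shn (m : ℕ) : KLRAlg D →ₐ[K] KLRAlg D :=
  liftHom (D := D) (e := fun k i => D.e (m + k) i) (x := fun k => D.x (m + k))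
    (t := fun k => D.t (m + k))
    { ee := fun k i j => D.rels.ee (m + k) i j
      ee_comm := fun k l i j => D.rels.ee_comm (m + k) (m + l) i j
      xx := fun k l => D.rels.xx (m + k) (m + l)
      xe := fun k l i => D.rels.xe (m + k) (m + l) i
      xE := fun k => D.rels.xE (m + k)
      tE := fun k => D.rels.tE (m + k)
      tE' := fun k => D.rels.tE' (m + k)
      te0 := fun k i => D.rels.te0 (m + k) i
      te1 := fun k i => D.rels.te1 (m + k) i
      te := fun k l i h h' => D.rels.te (m + k) (m + l) i (by omega) (by omega)
      tx := fun k l h h' => D.rels.tx (m + k) (m + l) (by omega) (by omega)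
      tx0 := fun k => D.rels.tx0 (m + k)
      tx1 := fun k => D.rels.tx1 (m + k)
      tt := fun k => D.rels.tt (m + k)
      far := fun k l h => D.rels.far (m + k) (m + l) (by omega)
      braid := fun k => D.rels.braid (m + k) }

@[simp] theorem shn_e (m k : ℕ) (i : I) : D.shn m (D.e k i) = D.e (m + k) i := liftHom_e _ k i
@[simp] theorem shn_x (m k : ℕ) : D.shn m (D.x k) = D.x (m + k) := liftHom_x _ k
@[simp] theorem shn_t (m k : ℕ) : D.shn m (D.t k) = D.t (m + k) := liftHom_t _ k

theorem shn_shn (m n : ℕ) (a : KLRAlg D) : D.shn m (D.shn n a) = D.shn (m + n) a := by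
  have h : (D.shn m).comp (D.shn n) = D.shn (m + n) := by
    apply hom_ext
    · intro k i; simp [add_assoc]
    · intro k; simp [add_assoc]
    · intro k; simp [add_assoc]
  exact DFunLike.congr_fun h a

theorem shn_zero (a : KLRAlg D) : D.shn 0 a = a := by
  have h : D.shn 0 = AlgHom.id K _ := by
    apply hom_ext
    · intro k i; simp
    · intro k; simp
    · intro k; simp
  exact DFunLike.congr_fun h a

/-- truncation to the first `m` strands -/
noncomputable def tr (m : ℕ) : KLRAlg D →ₐ[K] KLRAlg D :=
  liftHom (D := D) (e := fun k i => if k < m then D.e k i else 0)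
    (x := fun k => if k < m then D.x k else 0)
    (t := fun k => if k + 1 < m then D.t k else 0)
    { ee := by
        intro k i j
        by_cases h : k < m
        · simp only [h, if_true]; exact D.rels.ee k i j
        · simp [h]
      ee_comm := by
        intro k l i j
        by_cases h : k < m <;> by_cases h' : l < m <;> simp [h, h', D.e_comm k l i j]
      xx := by
        intro k l
        by_cases h : k < m <;> by_cases h' : l < m <;> simp [h, h', D.x_comm k l]
      xe := by
        intro k l i
        by_cases h : k < m <;> by_cases h' : l < m <;> simp [h, h', D.x_e k l i]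
      xE := by
        intro k
        by_cases h : k < m
        · simp only [h, if_true]; exact D.rels.xE k
        · simp [h]
      tE := by
        intro k
        by_cases h : k + 1 < m
        · have h' : k < m := by omega
          simp only [h, h', if_true]; exact D.rels.tE k
        · simp [h]
      tE' := by
        intro k
        by_cases h : k + 1 < m
        · simp only [h, if_true]; exact D.rels.tE' k
        · simp [h]
      te0 := by
        intro k i
        by_cases h : k + 1 < m
        · have h' : k < m := by omega
          simp only [h, h', if_true]; exact D.rels.te0 k i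
        · simp [h]
      te1 := by
        intro k i
        by_cases h : k + 1 < m
        · have h' : k < m := by omega
          simp only [h, h', if_true]; exact D.rels.te1 k i
        · simp [h]
      te := by
        intro k l i h1 h2
        by_cases h : k + 1 < m <;> by_cases h' : l < m <;> simp [h, h', D.t_e k l i h1 h2]
      tx := by
        intro k l h1 h2
        by_cases h : k + 1 < m <;> by_cases h' : l < m <;> simp [h, h', D.t_x k l h1 h2]
      tx0 := by
        intro k
        by_cases h : k + 1 < m
        · have h' : k < m := by omega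
          simp only [h, h', if_true]; exact D.rels.tx0 k
        · simp [h]
      tx1 := by
        intro k
        by_cases h : k + 1 < m
        · have h' : k < m := by omega
          simp only [h, h', if_true]; exact D.rels.tx1 k
        · simp [h]
      tt := by
        intro k
        by_cases h : k + 1 < m
        · have h' : k < m := by omega
          simp only [h, h', if_true]; exact D.rels.tt k
        · simp [h]
      far := by
        intro k l h1
        by_cases h : k + 1 < m <;> by_cases h' : l + 1 < m <;> simp [h, h', D.t_far k l h1]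
      braid := by
        intro k
        by_cases h : k + 2 < m
        · have h' : k < m := by omega
          have h'' : k + 1 < m := by omega
          simp only [h, h', h'', if_true]; exact D.rels.braid k
        · simp [h] }

theorem tr_e (m k : ℕ) (i : I) : D.tr m (D.e k i) = if k < m then D.e k i else 0 := liftHom_e _ k i
theorem tr_x (m k : ℕ) : D.tr m (D.x k) = if k < m then D.x k else 0 := liftHom_x _ k
theorem tr_t (m k : ℕ) : D.tr m (D.t k) = if k + 1 < m then D.t k else 0 := liftHom_t _ k

end Datum

/-- `M` is a module over the KLR algebra with `n` strands -/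
class IsStrand (D : Datum K I) (n : ℕ) (M : Type*) [AddCommGroup M] [Module (KLRAlg D) M] :
    Prop where
  one : ∀ k, k < n → ∀ u : M, D.E k • u = u
  zero : ∀ k, n ≤ k → ∀ (i : I) (u : M), D.e k i • u = 0

/-- the module `M` twisted by an algebra endomorphism `f` of the KLR algebra -/
@[nolint unusedArguments]
def Tw {D : Datum K I} (_f : KLRAlg D →ₐ[K] KLRAlg D) (M : Type*) : Type _ := M

namespace Tw

variable {D : Datum K I} (f : KLRAlg D →ₐ[K] KLRAlg D) (M : Type*) [AddCommGroup M] [Module K M]
  [Module (KLRAlg D) M] [IsScalarTower K (KLRAlg D) M]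

instance : AddCommGroup (Tw f M) := inferInstanceAs (AddCommGroup M)
instance : Module K (Tw f M) := inferInstanceAs (Module K M)
noncomputable instance : Module (KLRAlg D) (Tw f M) := Module.compHom M (f : KLRAlg D →+* KLRAlg D)

variable {M}

/-- the identity map -/
def mk : M ≃ₗ[K] Tw f M := LinearEquiv.refl K M

omit [IsScalarTower K (KLRAlg D) M] in
theorem smul_mk (a : KLRAlg D) (u : M) : a • mk f u = mk f (f a • u) := rfl

instance : IsScalarTower K (KLRAlg D) (Tw f M) where
  smul_assoc r a u := by
    obtain ⟨u, rfl⟩ := (mk f).surjective u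
    rw [smul_mk, smul_mk, map_smul f r a, smul_assoc]
    rfl

instance [FiniteDimensional K M] : FiniteDimensional K (Tw f M) :=
  inferInstanceAs (FiniteDimensional K M)

end Tw

end Pool.Agent.KLR
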