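import Pool.Agent.Work.MP_e487d8_al.Alg.Basic

/-! MP_e487d8_al: ring lemmas for shift and truncation. -/

set_option autoImplicit false

namespace Pool.Agent.KLR

variable {K I : Type} [Field K] [Fintype I] [DecidableEq I] (D : Datum K I)

namespace Datum

theorem e_E (k : ℕ) (i : I) : D.e k i * D.E k = D.e k i := by
  unfold E
  rw [Finset.mul_sum]
  simp [e_mul_e]

theorem E_e (k l : ℕ) (i : I) : D.E k * D.e l i = D.e l i * D.E k := by
  unfold E
  rw [Finset.mul_sum, Finset.sum_mul]
  exact Finset.sum_congr rfl fun j _ => D.e_comm k l j i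

theorem E_x (k l : ℕ) : D.E k * D.x l = D.x l * D.E k := by
  unfold E
  rw [Finset.mul_sum, Finset.sum_mul]
  exact Finset.sum_congr rfl fun j _ => (D.x_e l k j).symm

theorem E_t (k l : ℕ) : D.E k * D.t l = D.t l * D.E k := by
  by_cases h : k = l
  · subst h
    rw [D.t_E]
    conv_rhs => rw [← D.t_E' k]
    unfold E
    rw [Finset.mul_sum, Finset.sum_mul]
    exact Finset.sum_congr rfl fun j _ => (D.t_e1 k j).symm
  by_cases h' : k = l + 1
  · subst h'
    rw [D.t_E']
    conv_rhs => rw [← D.t_E l]
    unfold E
    rw [Finset.mul_sum, Finset.sum_mul]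
    exact Finset.sum_congr rfl fun j _ => (D.t_e0 l j).symm
  · unfold E
    rw [Finset.mul_sum, Finset.sum_mul]
    exact Finset.sum_congr rfl fun j _ => (D.t_e l k j h h').symm

/-- `E k` is central -/
theorem E_comm (k : ℕ) (a : KLRAlg D) : D.E k * a = a * D.E k := by
  induction a using KLRAlg.induction with
  | hs r => exact (Algebra.commutes r _).symm
  | he l i => exact D.E_e k l i
  | hx l => exact D.E_x k l
  | ht l => exact D.E_t k l
  | hadd a b ha hb => rw [mul_add, add_mul, ha, hb]
  | hmul a b ha hb => rw [← mul_assoc, ha, mul_assoc, hb, mul_assoc]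

theorem shn_E (m k : ℕ) : D.shn m (D.E k) = D.E (m + k) := by
  unfold E
  rw [map_sum]
  simp

theorem shn_dl (m k : ℕ) : D.shn m (D.dl k) = D.dl (m + k) := by
  unfold dl
  rw [map_sum]
  simp [add_assoc]

theorem tr_E (m k : ℕ) : D.tr m (D.E k) = if k < m then D.E k else 0 := by
  unfold E
  rw [map_sum]
  split_ifs with h <;> simp [tr_e, h]

theorem tr_tr {m p : ℕ} (h : m ≤ p) (a : KLRAlg D) : D.tr p (D.tr m a) = D.tr m a := by
  have h' : (D.tr p).comp (D.tr m) = D.tr m := by
    apply hom_ext
    · intro k i
      simp only [AlgHom.comp_apply, tr_e]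
      split_ifs with h1
      · rw [tr_e, if_pos (by omega)]
      · exact map_zero _
    · intro k
      simp only [AlgHom.comp_apply, tr_x]
      split_ifs with h1
      · rw [tr_x, if_pos (by omega)]
      · exact map_zero _
    · intro k
      simp only [AlgHom.comp_apply, tr_t]
      split_ifs with h1
      · rw [tr_t, if_pos (by omega)]
      · exact map_zero _
  exact DFunLike.congr_fun h' a

theorem tr_tr' {m p : ℕ} (h : m ≤ p) (a : KLRAlg D) : D.tr m (D.tr p a) = D.tr m a := by
  have h' : (D.tr m).comp (D.tr p) = D.tr m := by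
    apply hom_ext
    · intro k i
      simp only [AlgHom.comp_apply, tr_e]
      split_ifs with h1 h2 h2
      · rw [tr_e, if_pos h2]
      · rw [tr_e, if_neg h2]
      · omega
      · exact map_zero _
    · intro k
      simp only [AlgHom.comp_apply, tr_x]
      split_ifs with h1 h2 h2
      · rw [tr_x, if_pos h2]
      · rw [tr_x, if_neg h2]
      · omega
      · exact map_zero _
    · intro k
      simp only [AlgHom.comp_apply, tr_t]
      split_ifs with h1 h2 h2
      · rw [tr_t, if_pos h2]
      · rw [tr_t, if_neg h2]
      · omega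
      · exact map_zero _
  exact DFunLike.congr_fun h' a

theorem tr_shn (m n : ℕ) (a : KLRAlg D) : D.tr (m + n) (D.shn m a) = D.shn m (D.tr n a) := by
  have h' : (D.tr (m + n)).comp (D.shn m) = (D.shn m).comp (D.tr n) := by
    apply hom_ext
    · intro k i
      simp only [AlgHom.comp_apply, tr_e, shn_e]
      by_cases h : k < n
      · rw [if_pos (by omega), if_pos h, shn_e]
      · rw [if_neg (by omega), if_neg h, map_zero]
    · intro k
      simp only [AlgHom.comp_apply, tr_x, shn_x]
      by_cases h : k < n
      · rw [if_pos (by omega), if_pos h, shn_x]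
      · rw [if_neg (by omega), if_neg h, map_zero]
    · intro k
      simp only [AlgHom.comp_apply, tr_t, shn_t]
      by_cases h : k + 1 < n
      · rw [if_pos (by omega), if_pos h, shn_t]
      · rw [if_neg (by omega), if_neg h, map_zero]
  exact DFunLike.congr_fun h' a

/-- the first `m` strands commute with the strands from `m'` on, `m ≤ m'` -/
theorem tr_mul_shn {m m' : ℕ} (h : m ≤ m') (a b : KLRAlg D) :
    D.tr m a * D.shn m' b = D.shn m' b * D.tr m a := by
  induction b using KLRAlg.induction with
  | hs r => rw [AlgHom.commutes]; exact (Algebra.commutes r _).symm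
  | hadd b c hb hc => rw [map_add, mul_add, add_mul, hb, hc]
  | hmul b c hb hc => rw [map_mul, ← mul_assoc, hb, mul_assoc, hc, mul_assoc]
  | he l j =>
    rw [shn_e]
    induction a using KLRAlg.induction with
    | hs r => rw [AlgHom.commutes]; exact Algebra.commutes r _
    | hadd b c hb hc => rw [map_add, mul_add, add_mul, hb, hc]
    | hmul b c hb hc => rw [map_mul, mul_assoc, hc, ← mul_assoc, hb, mul_assoc]
    | he k i =>
      rw [tr_e]; split_ifs with h1
      · exact D.e_comm _ _ _ _
      · simp
    | hx k =>
      rw [tr_x]; split_ifs with h1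
      · exact D.x_e _ _ _
      · simp
    | ht k =>
      rw [tr_t]; split_ifs with h1
      · exact D.t_e _ _ _ (by omega) (by omega)
      · simp
  | hx l =>
    rw [shn_x]
    induction a using KLRAlg.induction with
    | hs r => rw [AlgHom.commutes]; exact Algebra.commutes r _
    | hadd b c hb hc => rw [map_add, mul_add, add_mul, hb, hc]
    | hmul b c hb hc => rw [map_mul, mul_assoc, hc, ← mul_assoc, hb, mul_assoc]
    | he k i =>
      rw [tr_e]; split_ifs with h1
      · exact (D.x_e _ _ _).symm
      · simp
    | hx k =>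
      rw [tr_x]; split_ifs with h1
      · exact D.x_comm _ _
      · simp
    | ht k =>
      rw [tr_t]; split_ifs with h1
      · exact D.t_x _ _ (by omega) (by omega)
      · simp
  | ht l =>
    rw [shn_t]
    induction a using KLRAlg.induction with
    | hs r => rw [AlgHom.commutes]; exact Algebra.commutes r _
    | hadd b c hb hc => rw [map_add, mul_add, add_mul, hb, hc]
    | hmul b c hb hc => rw [map_mul, mul_assoc, hc, ← mul_assoc, hb, mul_assoc]
    | he k i =>
      rw [tr_e]; split_ifs with h1
      · exact (D.t_e _ _ _ (by omega) (by omega)).symm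
      · simp
    | hx k =>
      rw [tr_x]; split_ifs with h1
      · exact (D.t_x _ _ (by omega) (by omega)).symm
      · simp
    | ht k =>
      rw [tr_t]; split_ifs with h1
      · exact D.t_far _ _ (by omega)
      · simp

end Datum

namespace IsStrand

variable {D} {n : ℕ} {M : Type*} [AddCommGroup M] [Module (KLRAlg D) M]

theorem E_smul_zero (h : IsStrand D n M) {k : ℕ} (hk : n ≤ k) (u : M) : D.E k • u = 0 := by
  unfold Datum.E
  rw [Finset.sum_smul]
  exact Finset.sum_eq_zero fun i _ => h.zero k hk i u

theorem x_smul_zero (h : IsStrand D n M) {k : ℕ} (hk : n ≤ k) (u : M) : D.x k • u = 0 := by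
  rw [← D.x_E, mul_smul, h.E_smul_zero hk, smul_zero]

theorem t_smul_zero (h : IsStrand D n M) {k : ℕ} (hk : n ≤ k + 1) (u : M) : D.t k • u = 0 := by
  rw [← D.t_E', mul_smul, h.E_smul_zero hk, smul_zero]

/-- on a module with `n` strands the truncation to `n` strands acts trivially -/
theorem tr_smul (h : IsStrand D n M) {m : ℕ} (hm : n ≤ m) (a : KLRAlg D) (u : M) :
    D.tr m a • u = a • u := by
  induction a using KLRAlg.induction generalizing u with
  | hs r => rw [AlgHom.commutes]
  | hadd b c hb hc => rw [map_add, add_smul, add_smul, hb, hc]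
  | hmul b c hb hc => rw [map_mul, mul_smul, mul_smul, hb, hc]
  | he k i =>
    rw [D.tr_e]; split_ifs with h1
    · rfl
    · rw [h.zero k (by omega), zero_smul]
  | hx k =>
    rw [D.tr_x]; split_ifs with h1
    · rfl
    · rw [h.x_smul_zero (by omega), zero_smul]
  | ht k =>
    rw [D.tr_t]; split_ifs with h1
    · rfl
    · rw [h.t_smul_zero (by omega), zero_smul]

end IsStrand

end Pool.Agent.KLR
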