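import Pool.Agent.Work.MP_e487d8_al.Alg.Lem

/-! MP_e487d8_al: the mirror endomorphism `D.mir m` of the KLR algebra (reversal of the first `m`
strands, `0` on the other strands). -/

set_option autoImplicit false

namespace Pool.Agent.KLR

variable {K I : Type} [Field K] [Fintype I] [DecidableEq I] (D : Datum K I)

namespace Datum

/-! ### the idempotents `dl k` -/

theorem e_dl (k l : ℕ) (i : I) : D.e l i * D.dl k = D.dl k * D.e l i := by
  unfold dl
  rw [Finset.mul_sum, Finset.sum_mul]
  refine Finset.sum_congr rfl fun j _ => ?_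
  rw [← mul_assoc, D.e_comm l k, mul_assoc, D.e_comm l (k + 1), mul_assoc]

theorem x_dl' (k l : ℕ) : D.x l * D.dl k = D.dl k * D.x l := by
  unfold dl
  rw [Finset.mul_sum, Finset.sum_mul]
  refine Finset.sum_congr rfl fun j _ => ?_
  rw [← mul_assoc, D.x_e, mul_assoc, D.x_e, mul_assoc]

theorem dl_mul_ee (k : ℕ) (i j : I) : D.dl k * (D.e k i * D.e (k + 1) j) =
    if i = j then D.e k i * D.e (k + 1) j else 0 := by
  unfold dl
  rw [Finset.sum_mul, Finset.sum_eq_single i]
  · rw [mul_assoc, ← mul_assoc (D.e (k + 1) i), D.e_comm (k + 1) k, mul_assoc, ← mul_assoc,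
      D.e_idem, D.e_mul_e]
    split_ifs with h
    · rw [h]
    · rw [mul_zero]
  · intro l _ hl
    rw [mul_assoc, ← mul_assoc (D.e (k + 1) l), D.e_comm (k + 1) k, mul_assoc, ← mul_assoc,
      D.e_mul_e_ne k hl, zero_mul]
  · intro h
    exact absurd (Finset.mem_univ i) h

theorem dl_idem (k : ℕ) : D.dl k * D.dl k = D.dl k := by
  conv_lhs => rw [dl, Finset.mul_sum]
  unfold dl
  refine Finset.sum_congr rfl fun i _ => ?_
  have h := D.dl_mul_ee k i i
  rwa [if_pos rfl] at h

theorem dl_comm (k l : ℕ) : D.dl k * D.dl l = D.dl l * D.dl k := by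
  change (∑ i, D.e k i * D.e (k + 1) i) * D.dl l = D.dl l * (∑ i, D.e k i * D.e (k + 1) i)
  rw [Finset.sum_mul, Finset.mul_sum]
  refine Finset.sum_congr rfl fun i _ => ?_
  rw [mul_assoc, D.e_dl l (k + 1), ← mul_assoc, D.e_dl l k, mul_assoc]

theorem t_dl (k : ℕ) : D.t k * D.dl k = D.dl k * D.t k := by
  unfold dl
  rw [Finset.mul_sum, Finset.sum_mul]
  refine Finset.sum_congr rfl fun j _ => ?_
  rw [← mul_assoc, D.t_e0, mul_assoc, D.t_e1, ← mul_assoc, D.e_comm (k + 1) k]

theorem t_dl_far (k l : ℕ) (h : k + 1 < l ∨ l + 1 < k) : D.t k * D.dl l = D.dl l * D.t k := by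
  unfold dl
  rw [Finset.mul_sum, Finset.sum_mul]
  refine Finset.sum_congr rfl fun j _ => ?_
  rw [← mul_assoc, D.t_e k l j (by omega) (by omega), mul_assoc,
    D.t_e k (l + 1) j (by omega) (by omega), mul_assoc]

/-- the sign `-1` on equal colours -/
noncomputable def sgn (k : ℕ) : KLRAlg D := 1 - 2 * D.dl k

theorem sgn_comm_of {k : ℕ} {a : KLRAlg D} (h : a * D.dl k = D.dl k * a) :
    a * D.sgn k = D.sgn k * a := by
  unfold sgn
  simp only [two_mul, mul_sub, sub_mul, mul_one, one_mul, mul_add, add_mul, h]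

theorem sgn_sq (k : ℕ) : D.sgn k * D.sgn k = 1 := by
  unfold sgn
  have h := D.dl_idem k
  have : (1 - 2 * D.dl k) * (1 - 2 * D.dl k) = 1 - 4 * D.dl k + 4 * (D.dl k * D.dl k) := by
    noncomm_ring
  rw [this, h]
  noncomm_ring

theorem dl_sgn (k : ℕ) : D.dl k * D.sgn k = - D.dl k := by
  unfold sgn
  have h := D.dl_idem k
  have : D.dl k * (1 - 2 * D.dl k) = D.dl k - 2 * (D.dl k * D.dl k) := by
    noncomm_ring
  rw [this, h]
  noncomm_ring

theorem sgn_mul_ee (k : ℕ) (i j : I) : D.sgn k * (D.e k i * D.e (k + 1) j) =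
    if i = j then -(D.e k i * D.e (k + 1) j) else D.e k i * D.e (k + 1) j := by
  unfold sgn
  rw [sub_mul, mul_assoc, dl_mul_ee, one_mul]
  split_ifs
  · noncomm_ring
  · rw [mul_zero, sub_zero]

/-- the mirrored crossing -/
noncomputable def ts (k : ℕ) : KLRAlg D := D.t k * D.sgn k

theorem ts_e (k l : ℕ) (i : I) (h : l ≠ k) (h' : l ≠ k + 1) :
    D.ts k * D.e l i = D.e l i * D.ts k := by
  unfold ts
  rw [mul_assoc, ← D.sgn_comm_of (D.e_dl k l i), ← mul_assoc, D.t_e k l i h h', mul_assoc]

theorem ts_e0 (k : ℕ) (i : I) : D.ts k * D.e k i = D.e (k + 1) i * D.ts k := by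
  unfold ts
  rw [mul_assoc, ← D.sgn_comm_of (D.e_dl k k i), ← mul_assoc, D.t_e0, mul_assoc]

theorem ts_e1 (k : ℕ) (i : I) : D.ts k * D.e (k + 1) i = D.e k i * D.ts k := by
  unfold ts
  rw [mul_assoc, ← D.sgn_comm_of (D.e_dl k (k + 1) i), ← mul_assoc, D.t_e1, mul_assoc]

theorem ts_E (k : ℕ) : D.ts k * D.E k = D.ts k := by
  unfold ts
  rw [mul_assoc, ← D.E_comm, ← mul_assoc, D.t_E]

theorem ts_E' (k : ℕ) : D.ts k * D.E (k + 1) = D.ts k := by
  unfold ts
  rw [mul_assoc, ← D.E_comm, ← mul_assoc, D.t_E']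

theorem ts_x (k l : ℕ) (h : l ≠ k) (h' : l ≠ k + 1) :
    D.ts k * D.x l = D.x l * D.ts k := by
  unfold ts
  rw [mul_assoc, ← D.sgn_comm_of (D.x_dl' k l), ← mul_assoc, D.t_x k l h h', mul_assoc]

theorem ts_x1 (k : ℕ) : D.ts k * D.x (k + 1) = D.x k * D.ts k - D.dl k := by
  unfold ts
  rw [mul_assoc, ← D.sgn_comm_of (D.x_dl' k (k + 1)), ← mul_assoc, D.t_x1, add_mul, mul_assoc,
    D.dl_sgn, sub_eq_add_neg]

theorem ts_x0 (k : ℕ) : D.ts k * D.x k = D.x (k + 1) * D.ts k + D.dl k := by
  unfold ts
  rw [mul_assoc, ← D.sgn_comm_of (D.x_dl' k k), ← mul_assoc, D.t_x0, sub_mul, mul_assoc,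
    D.dl_sgn, sub_neg_eq_add]

theorem ts_ts (k : ℕ) : D.ts k * D.ts k = D.t k * D.t k := by
  unfold ts
  rw [mul_assoc, ← mul_assoc (D.sgn k), ← D.sgn_comm_of (D.t_dl k), mul_assoc, D.sgn_sq, mul_one]

theorem ts_far (k l : ℕ) (h : k + 1 < l) : D.ts k * D.ts l = D.ts l * D.ts k := by
  unfold ts
  have h1 : D.t l * D.sgn k = D.sgn k * D.t l := D.sgn_comm_of (D.t_dl_far l k (Or.inr h))
  have h2 : D.t k * D.sgn l = D.sgn l * D.t k := D.sgn_comm_of (D.t_dl_far k l (Or.inl h))
  have h3 : D.sgn k * D.sgn l = D.sgn l * D.sgn k := by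
    apply D.sgn_comm_of
    exact (D.sgn_comm_of (D.dl_comm l k)).symm
  rw [mul_assoc, ← mul_assoc (D.sgn k), ← h1, mul_assoc (D.t l), h3, ← mul_assoc, ← mul_assoc,
    D.t_far k l h, mul_assoc (D.t l), h2]
  simp only [mul_assoc]

/-! ### the braid relation -/

/-- the idempotent of three neighbouring strands -/
noncomputable def e3 (a : ℕ) (i j l : I) : KLRAlg D := D.e a i * D.e (a + 1) j * D.e (a + 2) l

theorem sum_e3 (a : ℕ) : ∑ i, ∑ j, ∑ l, D.e3 a i j l = D.E a * D.E (a + 1) * D.E (a + 2) := by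
  unfold e3 E
  rw [Finset.sum_mul_sum, Finset.sum_mul]
  refine Finset.sum_congr rfl fun i _ => ?_
  rw [Finset.sum_mul]
  refine Finset.sum_congr rfl fun j _ => ?_
  rw [Finset.mul_sum]

theorem t_e3 (a : ℕ) (i j l : I) : D.t a * D.e3 a i j l = D.e3 a j i l * D.t a := by
  unfold e3
  rw [← mul_assoc, ← mul_assoc, D.t_e0, mul_assoc (D.e (a + 1) i), D.t_e1, ← mul_assoc,
    D.e_comm (a + 1) a i j, mul_assoc, D.t_e a (a + 2) l (by omega) (by omega), ← mul_assoc]

theorem t_e3' (a : ℕ) (i j l : I) : D.t (a + 1) * D.e3 a i j l = D.e3 a i l j * D.t (a + 1) := by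
  unfold e3
  rw [← mul_assoc, ← mul_assoc, D.t_e (a + 1) a i (by omega) (by omega),
    mul_assoc (D.e a i), D.t_e0, mul_assoc (D.e a i), mul_assoc (D.e (a + 1 + 1) j), D.t_e1,
    ← mul_assoc (D.e (a + 1 + 1) j), D.e_comm (a + 1 + 1) (a + 1) j l]
  simp only [mul_assoc]

/-- sign -/
def sg (i j : I) : ℤ := if i = j then -1 else 1

theorem ts_mul_ee (k : ℕ) (i j : I) : D.ts k * (D.e k i * D.e (k + 1) j) =
    sg i j • (D.t k * (D.e k i * D.e (k + 1) j)) := by
  unfold ts sg
  rw [mul_assoc, D.sgn_mul_ee]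
  split_ifs
  · rw [mul_neg, neg_one_smul]
  · rw [one_smul]

theorem ts_e3 (a : ℕ) (i j l : I) : D.ts a * D.e3 a i j l = sg i j • (D.t a * D.e3 a i j l) := by
  unfold e3
  rw [← mul_assoc, D.ts_mul_ee, smul_mul_assoc, mul_assoc (D.t a)]

theorem ts_e3' (a : ℕ) (i j l : I) :
    D.ts (a + 1) * D.e3 a i j l = sg j l • (D.t (a + 1) * D.e3 a i j l) := by
  have h : D.e3 a i j l = D.e (a + 1) j * D.e (a + 1 + 1) l * D.e a i := by
    unfold e3
    rw [D.e_comm a (a + 1), mul_assoc, D.e_comm a (a + 2), mul_assoc]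
  rw [h, ← mul_assoc, D.ts_mul_ee, smul_mul_assoc, mul_assoc (D.t (a + 1))]

theorem ts_word1 (a : ℕ) (i j l : I) : D.ts a * D.ts (a + 1) * D.ts a * D.e3 a i j l =
    (sg i j * sg i l * sg j l) • (D.t a * D.t (a + 1) * D.t a * D.e3 a i j l) := by
  have h1 : D.t a * D.t (a + 1) * D.t a * D.e3 a i j l =
      D.t a * D.e3 a j l i * (D.t (a + 1) * D.t a) := by
    rw [mul_assoc, D.t_e3, mul_assoc, ← mul_assoc (D.t (a + 1)), D.t_e3']
    simp only [mul_assoc]
  rw [mul_assoc, D.ts_e3, D.t_e3, mul_smul_comm, mul_assoc, ← mul_assoc (D.ts (a + 1)), D.ts_e3',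
    D.t_e3', smul_mul_assoc, mul_smul_comm, mul_assoc (D.e3 a j l i), ← mul_assoc (D.ts a), D.ts_e3,
    smul_mul_assoc, smul_smul, smul_smul, h1]

theorem ts_word2 (a : ℕ) (i j l : I) : D.ts (a + 1) * D.ts a * D.ts (a + 1) * D.e3 a i j l =
    (sg i j * sg i l * sg j l) • (D.t (a + 1) * D.t a * D.t (a + 1) * D.e3 a i j l) := by
  have h1 : D.t (a + 1) * D.t a * D.t (a + 1) * D.e3 a i j l =
      D.t (a + 1) * D.e3 a l i j * (D.t a * D.t (a + 1)) := by
    rw [mul_assoc, D.t_e3', mul_assoc, ← mul_assoc (D.t a), D.t_e3]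
    simp only [mul_assoc]
  rw [mul_assoc, D.ts_e3', D.t_e3', mul_smul_comm, mul_assoc, ← mul_assoc (D.ts a), D.ts_e3,
    D.t_e3, smul_mul_assoc, mul_smul_comm, mul_assoc (D.e3 a l i j), ← mul_assoc (D.ts (a + 1)),
    D.ts_e3', smul_mul_assoc, smul_smul, smul_smul, h1,
    show sg j l * sg i l * sg i j = sg i j * sg i l * sg j l by ring]

/-- the right hand side of the braid relation -/
noncomputable def br (a : ℕ) : KLRAlg D := ∑ i, ∑ j, if i = j then 0 else
      D.c i j • ((∑ p ∈ Finset.range (D.q i j),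
        (D.x a - D.x (a + 1)) ^ p * (D.x (a + 2) - D.x (a + 1)) ^ (D.q i j - 1 - p)) *
          D.e3 a i j i)

theorem t_braid' (a : ℕ) :
    D.t (a + 1) * D.t a * D.t (a + 1) - D.t a * D.t (a + 1) * D.t a = D.br a := D.t_braid a

theorem e3_mul_e3 (a : ℕ) (i j l i' j' l' : I) : D.e3 a i j l * D.e3 a i' j' l' =
    if i = i' ∧ j = j' ∧ l = l' then D.e3 a i j l else 0 := by
  have h : D.e3 a i j l * D.e3 a i' j' l' = (D.e a i * D.e a i') * (D.e (a + 1) j * D.e (a + 1) j') *
      (D.e (a + 2) l * D.e (a + 2) l') := by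
    unfold e3
    rw [mul_assoc (D.e a i * D.e (a + 1) j), ← mul_assoc (D.e (a + 2) l) (D.e a i' * D.e (a + 1) j'),
      ← mul_assoc (D.e (a + 2) l) (D.e a i'), D.e_comm (a + 2) a l i', mul_assoc (D.e a i'),
      D.e_comm (a + 2) (a + 1) l j', mul_assoc (D.e a i), ← mul_assoc (D.e (a + 1) j),
      ← mul_assoc (D.e (a + 1) j) (D.e a i'), D.e_comm (a + 1) a j i']
    simp only [mul_assoc]
  rw [h, D.e_mul_e, D.e_mul_e, D.e_mul_e]
  unfold e3
  by_cases h1 : i = i' <;> by_cases h2 : j = j' <;> by_cases h3 : l = l' <;> simp [h1, h2, h3]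

theorem br_e3 (a : ℕ) (i j l : I) : D.br a * D.e3 a i j l =
    if i = l ∧ i ≠ j then D.c i j • ((∑ p ∈ Finset.range (D.q i j),
        (D.x a - D.x (a + 1)) ^ p * (D.x (a + 2) - D.x (a + 1)) ^ (D.q i j - 1 - p)) *
          D.e3 a i j i) else 0 := by
  unfold br
  rw [Finset.sum_mul, Finset.sum_eq_single i]
  · rw [Finset.sum_mul, Finset.sum_eq_single j]
    · by_cases h : i = j
      · rw [if_pos h, zero_mul, if_neg (by simp [h])]
      · rw [if_neg h, smul_mul_assoc, mul_assoc, e3_mul_e3]
        by_cases h' : i = l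
        · subst h'
          rw [if_pos ⟨rfl, rfl, rfl⟩, if_pos ⟨rfl, h⟩]
        · rw [if_neg (by simp [h']), if_neg (by simp [h']), mul_zero, smul_zero]
    · intro j' _ hj'
      split_ifs
      · rw [zero_mul]
      · rw [smul_mul_assoc, mul_assoc, e3_mul_e3, if_neg (by simp [hj']), mul_zero, smul_zero]
    · intro h
      exact absurd (Finset.mem_univ j) h
  · intro i' _ hi'
    rw [Finset.sum_mul]
    refine Finset.sum_eq_zero fun j' _ => ?_
    split_ifs
    · rw [zero_mul]
    · rw [smul_mul_assoc, mul_assoc, e3_mul_e3, if_neg (by simp [hi']), mul_zero, smul_zero]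
  · intro h
    exact absurd (Finset.mem_univ i) h

theorem br_E (a : ℕ) : D.br a * (D.E a * D.E (a + 1) * D.E (a + 2)) = D.br a := by
  rw [← t_braid']
  have h1 : D.t (a + 1) * (D.E a * D.E (a + 1) * D.E (a + 2)) = D.E a * D.t (a + 1) := by
    rw [mul_assoc, D.E_comm a, D.E_comm a, ← mul_assoc, ← mul_assoc, D.t_E,
      show a + 2 = (a + 1) + 1 from rfl, D.t_E']
  have h2 : D.t a * (D.E a * D.E (a + 1) * D.E (a + 2)) = D.E (a + 2) * D.t a := by
    rw [← mul_assoc, ← mul_assoc, D.t_E, D.t_E', D.E_comm]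
  rw [sub_mul, mul_assoc, h1, mul_assoc (D.t (a + 1)), ← mul_assoc (D.t a), ← D.E_comm a (D.t a),
    D.E_comm a (D.t a), D.t_E, mul_assoc (D.t a * D.t (a + 1)), h2, mul_assoc (D.t a),
    ← mul_assoc (D.t (a + 1)) (D.E (a + 2)), show a + 2 = (a + 1) + 1 from rfl, D.t_E']
  simp only [mul_assoc]

theorem ts_E3 (a : ℕ) :
    (D.ts a * D.ts (a + 1) * D.ts a - D.ts (a + 1) * D.ts a * D.ts (a + 1)) *
      (D.E a * D.E (a + 1) * D.E (a + 2)) =
    D.ts a * D.ts (a + 1) * D.ts a - D.ts (a + 1) * D.ts a * D.ts (a + 1) := by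
  have h1 : D.ts (a + 1) * (D.E a * D.E (a + 1) * D.E (a + 2)) = D.E a * D.ts (a + 1) := by
    rw [mul_assoc, D.E_comm a, D.E_comm a, ← mul_assoc, ← mul_assoc, D.ts_E,
      show a + 2 = (a + 1) + 1 from rfl, D.ts_E']
  have h2 : D.ts a * (D.E a * D.E (a + 1) * D.E (a + 2)) = D.E (a + 2) * D.ts a := by
    rw [← mul_assoc, ← mul_assoc, D.ts_E, D.ts_E', D.E_comm]
  rw [sub_mul, mul_assoc (D.ts (a + 1) * D.ts a), h1, mul_assoc (D.ts (a + 1)),
    ← mul_assoc (D.ts a) (D.E a), D.ts_E, mul_assoc (D.ts a * D.ts (a + 1)), h2,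
    mul_assoc (D.ts a), ← mul_assoc (D.ts (a + 1)) (D.E (a + 2)),
    show a + 2 = (a + 1) + 1 from rfl, D.ts_E']
  simp only [mul_assoc]

theorem ts_braid (a : ℕ) :
    D.ts a * D.ts (a + 1) * D.ts a - D.ts (a + 1) * D.ts a * D.ts (a + 1) = D.br a := by
  rw [← D.ts_E3, ← D.br_E, ← sum_e3]
  simp only [Finset.mul_sum]
  refine Finset.sum_congr rfl fun i _ => Finset.sum_congr rfl fun j _ =>
    Finset.sum_congr rfl fun l _ => ?_
  rw [sub_mul, ts_word1, ts_word2, ← smul_sub, ← sub_mul]
  have h : D.t a * D.t (a + 1) * D.t a - D.t (a + 1) * D.t a * D.t (a + 1) = - D.br a := by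
    rw [← t_braid', neg_sub]
  rw [h, neg_mul, br_e3]
  split_ifs with h1
  · obtain ⟨rfl, h2⟩ := h1
    rw [show sg i j * sg i i * sg j i = -1 by
      unfold sg
      rw [if_neg h2, if_pos rfl, if_neg (Ne.symm h2)]
      rfl, smul_neg, neg_smul, neg_neg, one_smul]
  · rw [neg_zero, smul_zero]

/-- the mirror endomorphism -/
noncomputable def mir (m : ℕ) : KLRAlg D →ₐ[K] KLRAlg D :=
  liftHom (D := D) (e := fun k i => if k < m then D.e (m - 1 - k) i else 0)
    (x := fun k => if k < m then D.x (m - 1 - k) else 0)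
    (t := fun k => if k + 1 < m then D.ts (m - 2 - k) else 0)
    { ee := by
        intro k i j
        by_cases h : k < m
        · simp only [h, if_true]; exact D.rels.ee _ i j
        · simp [h]
      ee_comm := by
        intro k l i j
        by_cases h : k < m <;> by_cases h' : l < m <;> simp [h, h', D.e_comm _ _ i j]
      xx := by
        intro k l
        by_cases h : k < m <;> by_cases h' : l < m <;> simp [h, h', D.x_comm (m - 1 - k) _]
      xe := by
        intro k l i
        by_cases h : k < m <;> by_cases h' : l < m <;> simp [h, h', D.x_e]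
      xE := by
        intro k
        by_cases h : k < m
        · simp only [h, if_true]; exact D.rels.xE _
        · simp [h]
      tE := by
        intro k
        by_cases h : k + 1 < m
        · have h' : k < m := by omega
          obtain ⟨a, ha1, ha2⟩ : ∃ a, m - 2 - k = a ∧ m - 1 - k = a + 1 := ⟨_, rfl, by omega⟩
          simp only [h, h', if_true, ha1, ha2]
          exact D.ts_E' a
        · simp [h]
      tE' := by
        intro k
        by_cases h : k + 1 < m
        · obtain ⟨a, ha1, ha2⟩ : ∃ a, m - 2 - k = a ∧ m - 1 - (k + 1) = a := ⟨_, rfl, by omega⟩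
          simp only [h, if_true, ha1, ha2]
          exact D.ts_E a
        · simp [h]
      te0 := by
        intro k i
        by_cases h : k + 1 < m
        · have h' : k < m := by omega
          obtain ⟨a, ha1, ha2, ha3⟩ : ∃ a, m - 2 - k = a ∧ m - 1 - k = a + 1 ∧
            m - 1 - (k + 1) = a := ⟨_, rfl, by omega, by omega⟩
          simp only [h, h', if_true, ha1, ha2, ha3]
          exact D.ts_e1 a i
        · simp [h]
      te1 := by
        intro k i
        by_cases h : k + 1 < m
        · have h' : k < m := by omega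
          obtain ⟨a, ha1, ha2, ha3⟩ : ∃ a, m - 2 - k = a ∧ m - 1 - k = a + 1 ∧
            m - 1 - (k + 1) = a := ⟨_, rfl, by omega, by omega⟩
          simp only [h, h', if_true, ha1, ha2, ha3]
          exact D.ts_e0 a i
        · simp [h]
      te := by
        intro k l i h1 h2
        by_cases h : k + 1 < m
        · by_cases h' : l < m
          · simp only [h, h', if_true]
            exact D.ts_e _ _ i (by omega) (by omega)
          · simp [h']
        · simp [h]
      tx := by
        intro k l h1 h2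
        by_cases h : k + 1 < m
        · by_cases h' : l < m
          · simp only [h, h', if_true]
            exact D.ts_x _ _ (by omega) (by omega)
          · simp [h']
        · simp [h]
      tx0 := by
        intro k
        by_cases h : k + 1 < m
        · have h' : k < m := by omega
          obtain ⟨a, ha1, ha2, ha3⟩ : ∃ a, m - 2 - k = a ∧ m - 1 - k = a + 1 ∧
            m - 1 - (k + 1) = a := ⟨_, rfl, by omega, by omega⟩
          simp only [h, h', if_true, ha1, ha2, ha3]
          rw [D.ts_x1]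
          congr 1
          unfold dl
          exact Finset.sum_congr rfl fun i _ => D.e_comm _ _ _ _
        · simp [h]
      tx1 := by
        intro k
        by_cases h : k + 1 < m
        · have h' : k < m := by omega
          obtain ⟨a, ha1, ha2, ha3⟩ : ∃ a, m - 2 - k = a ∧ m - 1 - k = a + 1 ∧
            m - 1 - (k + 1) = a := ⟨_, rfl, by omega, by omega⟩
          simp only [h, h', if_true, ha1, ha2, ha3]
          rw [D.ts_x0]
          congr 1
          unfold dl
          exact Finset.sum_congr rfl fun i _ => D.e_comm _ _ _ _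
        · simp [h]
      tt := by
        intro k
        by_cases h : k + 1 < m
        · have h' : k < m := by omega
          obtain ⟨a, ha1, ha2, ha3⟩ : ∃ a, m - 2 - k = a ∧ m - 1 - k = a + 1 ∧
            m - 1 - (k + 1) = a := ⟨_, rfl, by omega, by omega⟩
          simp only [h, h', if_true, ha1, ha2, ha3]
          rw [D.ts_ts, D.t_t, Finset.sum_comm]
          refine Finset.sum_congr rfl fun i _ => Finset.sum_congr rfl fun j _ => ?_
          by_cases hij : i = j
          · rw [if_pos hij, if_pos hij.symm]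
          · rw [if_neg hij, if_neg (Ne.symm hij), D.c_symm i j hij, D.e_comm (a + 1) a i j,
              ← neg_sub (D.x a) (D.x (a + 1)), neg_pow (D.x a - D.x (a + 1))]
            have hq : D.q j i = D.q i j := by unfold q; rw [D.symm]
            rw [hq]
            unfold q
            rcases Nat.even_or_odd (D.A i j).natAbs with h5 | h5
            · simp [h5.neg_one_pow]
            · simp [h5.neg_one_pow]
        · simp [h]
      far := by
        intro k l h1
        by_cases h : l + 1 < m
        · have h' : k + 1 < m := by omega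
          simp only [h, h', if_true]
          exact (D.ts_far _ _ (by omega)).symm
        · simp [h]
      braid := by
        intro k
        by_cases h : k + 2 < m
        · have h' : k < m := by omega
          have h'' : k + 1 < m := by omega
          obtain ⟨a, ha1, ha2, ha3, ha4, ha5⟩ : ∃ a, m - 2 - k = a + 1 ∧ m - 2 - (k + 1) = a ∧
            m - 1 - k = a + 2 ∧ m - 1 - (k + 1) = a + 1 ∧ m - 1 - (k + 2) = a :=
              ⟨m - 3 - k, by omega, by omega, by omega, by omega, by omega⟩
          simp only [h, h', h'', if_true, ha1, ha2, ha3, ha4, ha5]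
          rw [D.ts_braid]
          unfold br
          refine Finset.sum_congr rfl fun i _ => Finset.sum_congr rfl fun j _ => ?_
          by_cases hij : i = j
          · rw [if_pos hij, if_pos hij]
          · rw [if_neg hij, if_neg hij]
            have h6 : D.e (a + 2) i * D.e (a + 1) j * D.e a i = D.e3 a i j i := by
              unfold e3
              rw [mul_assoc, D.e_comm (a + 1) a, ← mul_assoc, D.e_comm (a + 2) a, mul_assoc,
                D.e_comm (a + 2) (a + 1), ← mul_assoc]
            have h7 : Commute (D.x a - D.x (a + 1)) (D.x (a + 2) - D.x (a + 1)) :=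
              Commute.sub_left (Commute.sub_right (D.x_comm _ _) (D.x_comm _ _))
                (Commute.sub_right (D.x_comm _ _) (D.x_comm _ _))
            rw [h6, h7.geom_sum₂_comm]
        · simp [h] }

theorem mir_e (m k : ℕ) (i : I) : D.mir m (D.e k i) = if k < m then D.e (m - 1 - k) i else 0 :=
  liftHom_e _ k i
theorem mir_x (m k : ℕ) : D.mir m (D.x k) = if k < m then D.x (m - 1 - k) else 0 := liftHom_x _ k
theorem mir_t (m k : ℕ) : D.mir m (D.t k) = if k + 1 < m then D.ts (m - 2 - k) else 0 :=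
  liftHom_t _ k

theorem mir_dl (m k : ℕ) : D.mir m (D.dl k) = if k + 1 < m then D.dl (m - 2 - k) else 0 := by
  unfold dl
  rw [map_sum]
  by_cases h : k + 1 < m
  · rw [if_pos h]
    refine Finset.sum_congr rfl fun i _ => ?_
    rw [map_mul, mir_e, mir_e, if_pos (by omega), if_pos h, D.e_comm,
      show m - 1 - (k + 1) = m - 2 - k by omega, show m - 1 - k = m - 2 - k + 1 by omega]
  · rw [if_neg h]
    refine Finset.sum_eq_zero fun i _ => ?_
    rw [map_mul, mir_e D m (k + 1), if_neg h, mul_zero]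

theorem mir_E (m k : ℕ) : D.mir m (D.E k) = if k < m then D.E (m - 1 - k) else 0 := by
  unfold E
  rw [map_sum]
  by_cases h : k < m
  · rw [if_pos h]
    exact Finset.sum_congr rfl fun i _ => by rw [mir_e, if_pos h]
  · rw [if_neg h]
    exact Finset.sum_eq_zero fun i _ => by rw [mir_e, if_neg h]

theorem mir_ts (m k : ℕ) : D.mir m (D.ts k) = if k + 1 < m then D.t (m - 2 - k) else 0 := by
  unfold ts sgn
  rw [map_mul, map_sub, map_one, map_mul, mir_dl, mir_t]
  split_ifs with h
  · rw [show D.mir m 2 = 2 from map_ofNat _ 2]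
    have h1 : D.ts (m - 2 - k) * (1 - 2 * D.dl (m - 2 - k)) =
        D.t (m - 2 - k) * (D.sgn (m - 2 - k) * D.sgn (m - 2 - k)) := by
      unfold ts
      rw [mul_assoc]
      rfl
    rw [h1, D.sgn_sq, mul_one]
  · rw [zero_mul]

/-- the mirror endomorphism is an involution on the first `m` strands -/
theorem mir_mir (m : ℕ) (a : KLRAlg D) : D.mir m (D.mir m a) = D.tr m a := by
  have h : (D.mir m).comp (D.mir m) = D.tr m := by
    apply hom_ext
    · intro k i
      rw [AlgHom.comp_apply, mir_e, tr_e]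
      split_ifs with h
      · rw [mir_e, if_pos (by omega), show m - 1 - (m - 1 - k) = k by omega]
      · exact map_zero _
    · intro k
      rw [AlgHom.comp_apply, mir_x, tr_x]
      split_ifs with h
      · rw [mir_x, if_pos (by omega), show m - 1 - (m - 1 - k) = k by omega]
      · exact map_zero _
    · intro k
      rw [AlgHom.comp_apply, mir_t, tr_t]
      split_ifs with h
      · rw [mir_ts, if_pos (by omega), show m - 2 - (m - 2 - k) = k by omega]
      · exact map_zero _
  exact DFunLike.congr_fun h a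

theorem shn_ts (m k : ℕ) : D.shn m (D.ts k) = D.ts (m + k) := by
  unfold ts sgn
  rw [map_mul, map_sub, map_one, map_mul, shn_dl, shn_t, show D.shn m 2 = 2 from map_ofNat _ 2]

theorem tr_ts (m k : ℕ) : D.tr m (D.ts k) = if k + 1 < m then D.ts k else 0 := by
  unfold ts
  rw [map_mul, tr_t]
  split_ifs with h
  · congr 1
    unfold sgn dl
    rw [map_sub, map_one, map_mul, map_sum, show D.tr m 2 = 2 from map_ofNat _ 2]
    congr 2
    refine Finset.sum_congr rfl fun i _ => ?_
    rw [map_mul, tr_e, tr_e, if_pos (by omega), if_pos h]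
  · rw [zero_mul]

/-- the mirror of the first `n` strands out of `m + n` strands -/
theorem mir_tr (m n : ℕ) (a : KLRAlg D) : D.mir (m + n) (D.tr n a) = D.shn m (D.mir n a) := by
  have h : (D.mir (m + n)).comp (D.tr n) = (D.shn m).comp (D.mir n) := by
    apply hom_ext
    · intro k i
      rw [AlgHom.comp_apply, AlgHom.comp_apply, tr_e, mir_e]
      split_ifs with h
      · rw [mir_e, if_pos (by omega), shn_e, show m + n - 1 - k = m + (n - 1 - k) by omega]
      · rw [map_zero, map_zero]
    · intro k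
      rw [AlgHom.comp_apply, AlgHom.comp_apply, tr_x, mir_x]
      split_ifs with h
      · rw [mir_x, if_pos (by omega), shn_x, show m + n - 1 - k = m + (n - 1 - k) by omega]
      · rw [map_zero, map_zero]
    · intro k
      rw [AlgHom.comp_apply, AlgHom.comp_apply, tr_t, mir_t]
      split_ifs with h
      · rw [mir_t, if_pos (by omega), shn_ts, show m + n - 2 - k = m + (n - 2 - k) by omega]
      · rw [map_zero, map_zero]
  exact DFunLike.congr_fun h a

/-- the mirror of the last `m` strands out of `m + n` strands -/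
theorem mir_shn (m n : ℕ) (a : KLRAlg D) : D.mir (m + n) (D.shn n a) = D.mir m a := by
  have h : (D.mir (m + n)).comp (D.shn n) = D.mir m := by
    apply hom_ext
    · intro k i
      rw [AlgHom.comp_apply, shn_e, mir_e, mir_e]
      by_cases h : k < m
      · rw [if_pos h, if_pos (by omega), show m + n - 1 - (n + k) = m - 1 - k by omega]
      · rw [if_neg h, if_neg (by omega)]
    · intro k
      rw [AlgHom.comp_apply, shn_x, mir_x, mir_x]
      by_cases h : k < m
      · rw [if_pos h, if_pos (by omega), show m + n - 1 - (n + k) = m - 1 - k by omega]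
      · rw [if_neg h, if_neg (by omega)]
    · intro k
      rw [AlgHom.comp_apply, shn_t, mir_t, mir_t]
      by_cases h : k + 1 < m
      · rw [if_pos h, if_pos (by omega), show m + n - 2 - (n + k) = m - 2 - k by omega]
      · rw [if_neg h, if_neg (by omega)]
  exact DFunLike.congr_fun h a

theorem tr_mir (m : ℕ) (a : KLRAlg D) : D.tr m (D.mir m a) = D.mir m a := by
  have h : (D.tr m).comp (D.mir m) = D.mir m := by
    apply hom_ext
    · intro k i
      rw [AlgHom.comp_apply, mir_e]
      split_ifs with h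
      · rw [tr_e, if_pos (by omega)]
      · exact map_zero _
    · intro k
      rw [AlgHom.comp_apply, mir_x]
      split_ifs with h
      · rw [tr_x, if_pos (by omega)]
      · exact map_zero _
    · intro k
      rw [AlgHom.comp_apply, mir_t]
      split_ifs with h
      · rw [tr_ts, if_pos (by omega)]
      · exact map_zero _
  exact DFunLike.congr_fun h a

end Datum

end Pool.Agent.KLR
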